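import Mathlib

/-!
# MP_e6fcc0_an

For every `n ≥ 3` there is a superattracting germ `f` of `(ℂⁿ, O)` with non-degenerate leading
term `H`, whose postcritical set is a topological cone near `O`, and which is not topologically
locally conjugated to `H`:

  `f (x, y, z, w₄, …, wₙ) = (x², y², z² - x⁴ y², w₄², …, wₙ²)`.
-/

open Filter Topology Asymptotics

namespace Pool.Agent.Results.MP_e6fcc0_an.TopCone

/-- `H : ℂⁿ → ℂⁿ` is a homogeneous polynomial map of degree `c`. -/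
def IsHomogeneousMap {n : ℕ} (c : ℕ) (H : (Fin n → ℂ) → (Fin n → ℂ)) : Prop :=
  ∃ P : Fin n → MvPolynomial (Fin n) ℂ, (∀ i, (P i).IsHomogeneous c) ∧
    ∀ z i, H z i = MvPolynomial.eval z (P i)

/-- `H` is the leading homogeneous term of `f` at the origin and `c` is the order of `f`:
`H` is a homogeneous polynomial map of degree `c`, not identically zero, and
`f - H = O(‖z‖ ^ (c + 1))` at the origin. -/
def IsLeadingTerm {n : ℕ} (c : ℕ) (f H : (Fin n → ℂ) → (Fin n → ℂ)) : Prop :=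
  IsHomogeneousMap c H ∧ (∃ z, H z ≠ 0) ∧
    (fun z => f z - H z) =O[𝓝 0] fun z : Fin n → ℂ => ‖z‖ ^ (c + 1)

/-- `f` represents a superattracting germ of holomorphic self-map of `(ℂⁿ, O)`. -/
def IsSuperattracting {n : ℕ} (f : (Fin n → ℂ) → (Fin n → ℂ)) : Prop :=
  AnalyticAt ℂ f 0 ∧ f 0 = 0 ∧ fderiv ℂ f 0 = 0

/-- The critical set `{det (df) = 0}` of `f`. -/
def Crit {n : ℕ} (f : (Fin n → ℂ) → (Fin n → ℂ)) : Set (Fin n → ℂ) :=
  {z | (fderiv ℂ f z).det = 0}

/-- The postcritical set `⋃ k ≥ 0, f^k (Crit f)` of the restriction of `f` to `U`: the points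
`f^k z` with `z` critical and `z, f z, …, f^k z` all in `U`. -/
def PCritOn {n : ℕ} (f : (Fin n → ℂ) → (Fin n → ℂ)) (U : Set (Fin n → ℂ)) :
    Set (Fin n → ℂ) :=
  {w | ∃ k : ℕ, ∃ z ∈ Crit f, (∀ j ≤ k, f^[j] z ∈ U) ∧ f^[k] z = w}

/-- A standard cone: a set `K` with `a K ⊆ K` for every `a ∈ ℂ`. -/
def IsStandardCone {n : ℕ} (K : Set (Fin n → ℂ)) : Prop :=
  ∀ a : ℂ, ∀ z ∈ K, a • z ∈ K

/-- The postcritical set of `f` is a topological cone near `O`: there are a (closed) standard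
cone `K` and a homeomorphism `ψ` between open neighbourhoods of `O` fixing `O` such that, for
every neighbourhood `U` of `O`, the postcritical set of `f` restricted to `U` and `ψ(K)` agree
near `O`. -/
def PCritIsTopologicalCone {n : ℕ} (f : (Fin n → ℂ) → (Fin n → ℂ)) : Prop :=
  ∃ K : Set (Fin n → ℂ), IsClosed K ∧ IsStandardCone K ∧
    ∃ ψ : OpenPartialHomeomorph (Fin n → ℂ) (Fin n → ℂ), 0 ∈ ψ.source ∧ ψ 0 = 0 ∧
      ∀ U ∈ 𝓝 (0 : Fin n → ℂ), ∀ᶠ w in 𝓝 (0 : Fin n → ℂ),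
        (w ∈ PCritOn f U ↔ w ∈ ψ '' (ψ.source ∩ K))

/-- `f` and `H` are topologically locally conjugated near `O`: `φ ∘ f = H ∘ φ` near `O` for a
homeomorphism `φ` between open neighbourhoods of `O` with `φ(O) = O`. -/
def TopologicallyConjugated {n : ℕ} (f H : (Fin n → ℂ) → (Fin n → ℂ)) : Prop :=
  ∃ φ : OpenPartialHomeomorph (Fin n → ℂ) (Fin n → ℂ), 0 ∈ φ.source ∧ φ 0 = 0 ∧
    ∀ᶠ z in 𝓝 (0 : Fin n → ℂ), φ (f z) = H (φ z)

/-! ### The example -/

section Example

variable (m : ℕ)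

/-- The germ `f`. -/
noncomputable def F (z : Fin (m + 3) → ℂ) : Fin (m + 3) → ℂ :=
  fun i => z i ^ 2 - if i = 2 then z 0 ^ 4 * z 1 ^ 2 else 0

/-- Its leading term. -/
noncomputable def H (z : Fin (m + 3) → ℂ) : Fin (m + 3) → ℂ :=
  fun i => z i ^ 2

/-- The postcritical set of the example. -/
def V : Set (Fin (m + 3) → ℂ) :=
  {w | (∃ i, w i = 0) ∨ w 2 = - (w 0 ^ 2 * w 1)}

variable {m}

lemma F_apply_of_ne {z : Fin (m + 3) → ℂ} {i : Fin (m + 3)} (hi : i ≠ 2) :
    F m z i = z i ^ 2 := by simp [F, hi]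

lemma F_apply_two (z : Fin (m + 3) → ℂ) :
    F m z 2 = z 2 ^ 2 - z 0 ^ 4 * z 1 ^ 2 := by simp [F]

lemma val_two : ((2 : Fin (m + 3)) : ℕ) = 2 := by
  have : ((2 : Fin (m + 3)) : ℕ) = 2 % (m + 3) := rfl
  rw [this, Nat.mod_eq_of_lt (by omega)]

lemma zero_ne_two : (0 : Fin (m + 3)) ≠ 2 := by
  intro h; have := congrArg Fin.val h; rw [val_two] at this; simp at this

lemma one_ne_two : (1 : Fin (m + 3)) ≠ 2 := by
  intro h; have := congrArg Fin.val h; rw [val_two] at this; simp at this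

/-! #### Derivative and critical set -/

/-- The derivative of `F`. -/
noncomputable def F' (z : Fin (m + 3) → ℂ) : (Fin (m + 3) → ℂ) →L[ℂ] (Fin (m + 3) → ℂ) :=
  ContinuousLinearMap.pi fun i =>
    (2 * z i) • ContinuousLinearMap.proj (R := ℂ) (φ := fun _ : Fin (m + 3) => ℂ) i -
      if i = 2 then
        (4 * z 0 ^ 3 * z 1 ^ 2) • ContinuousLinearMap.proj (R := ℂ) (φ := fun _ : Fin (m + 3) => ℂ) 0 +
        (z 0 ^ 4 * (2 * z 1)) • ContinuousLinearMap.proj (R := ℂ) (φ := fun _ : Fin (m + 3) => ℂ) 1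
      else 0

lemma hasFDerivAt_F (z : Fin (m + 3) → ℂ) : HasFDerivAt (F m) (F' z) z := by
  refine hasFDerivAt_pi.2 fun i => ?_
  have hp : ∀ j : Fin (m + 3), HasFDerivAt (fun w : Fin (m + 3) → ℂ => w j)
      (ContinuousLinearMap.proj (R := ℂ) (φ := fun _ : Fin (m + 3) => ℂ) j) z :=
    fun j => hasFDerivAt_apply j z
  by_cases hi : i = 2
  · subst hi
    simp only [F, if_true]
    have h := ((hp 2).pow 2).sub (((hp 0).pow 4).mul ((hp 1).pow 2))
    refine h.congr_fderiv ?_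
    ext v
    simp
    ring
  · simp only [F, hi, if_false]
    have h := ((hp i).pow 2).sub_const (0 : ℂ)
    refine h.congr_fderiv ?_
    ext v
    simp

lemma fderiv_F (z : Fin (m + 3) → ℂ) : fderiv ℂ (F m) z = F' z := (hasFDerivAt_F z).fderiv

lemma det_F' (z : Fin (m + 3) → ℂ) : (F' z).det = ∏ i, (2 * z i) := by
  have h1 : (F' z).det = (LinearMap.toMatrix' (F' z : (Fin (m + 3) → ℂ) →ₗ[ℂ] (Fin (m + 3) → ℂ))).det :=
    (LinearMap.det_toMatrix' _).symm
  rw [h1, Matrix.det_of_isLowerTriangular]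
  · refine Finset.prod_congr rfl fun i _ => ?_
    rw [LinearMap.toMatrix'_apply]
    by_cases hi : i = 2
    · subst hi
      simp [F', zero_ne_two, one_ne_two]
    · simp [F', hi]
  · intro i j hij
    have hij' : i < j := by simpa using hij
    rw [LinearMap.toMatrix'_apply]
    by_cases hi : i = 2
    · subst hi
      have h0 : (0 : Fin (m + 3)) ≠ j := by
        intro h; subst h; exact absurd hij' (by simp)
      have h1 : (1 : Fin (m + 3)) ≠ j := by
        intro h; subst h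
        have := Fin.lt_def.1 hij'
        rw [val_two] at this
        simp at this
      simp [F', h0, h1, hij'.ne]
    · simp [F', hi, hij'.ne]

lemma mem_crit_iff (z : Fin (m + 3) → ℂ) : z ∈ Crit (F m) ↔ ∃ i, z i = 0 := by
  simp only [Crit, Set.mem_ofPred_eq, fderiv_F, det_F', Finset.prod_eq_zero_iff]
  simp

/-! #### Superattracting germ and leading term -/

lemma analyticAt_F (z : Fin (m + 3) → ℂ) : AnalyticAt ℂ (F m) z := by
  have hp : ∀ j : Fin (m + 3), AnalyticAt ℂ (fun w : Fin (m + 3) → ℂ => w j) z := fun j =>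
    (ContinuousLinearMap.proj (R := ℂ) (φ := fun _ : Fin (m + 3) => ℂ) j).analyticAt z
  refine AnalyticAt.pi (f := fun i (w : Fin (m + 3) → ℂ) =>
    w i ^ 2 - if i = 2 then w 0 ^ 4 * w 1 ^ 2 else 0) fun i => ?_
  by_cases hi : i = 2
  · simp only [hi, if_true]
    exact ((hp 2).pow 2).sub (((hp 0).pow 4).mul ((hp 1).pow 2))
  · simp only [hi, if_false]
    exact ((hp i).pow 2).sub analyticAt_const

lemma F_zero : F m 0 = 0 := by
  funext i
  by_cases hi : i = 2
  · subst hi; simp [F]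
  · simp [F, hi]

lemma fderiv_F_zero : fderiv ℂ (F m) 0 = 0 := by
  rw [fderiv_F]
  ext v i
  by_cases hi : i = 2
  · subst hi; simp [F']
  · simp [F', hi]

lemma continuous_F : Continuous (F m) :=
  continuous_iff_continuousAt.2 fun z => (analyticAt_F z).continuousAt

lemma isLeadingTerm : IsLeadingTerm 2 (F m) (H m) := by
  refine ⟨⟨fun i => MvPolynomial.X i ^ 2, fun i => ?_, fun z i => by simp [H]⟩,
    ⟨fun _ => 1, ?_⟩, ?_⟩
  · simpa using (MvPolynomial.isHomogeneous_X ℂ i).pow 2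
  · intro h
    have := congrFun h 0
    simp [H] at this
  · refine IsBigO.of_bound 1 ?_
    have hev : ∀ᶠ z : Fin (m + 3) → ℂ in 𝓝 0, ‖z‖ < 1 := by
      have : Metric.ball (0 : Fin (m + 3) → ℂ) 1 ∈ 𝓝 0 := Metric.ball_mem_nhds _ one_pos
      filter_upwards [this] with z hz using by simpa using hz
    filter_upwards [hev] with z hz
    rw [Real.norm_of_nonneg (by positivity), one_mul]
    refine (pi_norm_le_iff_of_nonneg (by positivity)).2 fun i => ?_
    by_cases hi : i = 2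
    · subst hi
      have h0 : ‖z 0‖ ≤ ‖z‖ := norm_le_pi_norm z 0
      have h1 : ‖z 1‖ ≤ ‖z‖ := norm_le_pi_norm z 1
      have : F m z 2 - H m z 2 = - (z 0 ^ 4 * z 1 ^ 2) := by
        rw [F_apply_two]; simp only [H]; ring
      rw [Pi.sub_apply, this, norm_neg, norm_mul, norm_pow, norm_pow]
      calc ‖z 0‖ ^ 4 * ‖z 1‖ ^ 2 ≤ ‖z‖ ^ 4 * ‖z‖ ^ 2 := by gcongr
        _ = ‖z‖ ^ 3 * ‖z‖ ^ 3 := by ring
        _ ≤ ‖z‖ ^ 3 * 1 := by
            gcongr
            exact pow_le_one₀ (norm_nonneg _) hz.le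
        _ = ‖z‖ ^ (2 + 1) := by ring
    · have : F m z i - H m z i = 0 := by rw [F_apply_of_ne hi]; simp [H]
      rw [Pi.sub_apply, this, norm_zero]
      positivity

lemma H_eq_zero {z : Fin (m + 3) → ℂ} (h : H m z = 0) : z = 0 := by
  funext i
  have := congrFun h i
  simpa [H] using this

/-! #### The postcritical set -/

lemma F_mem_V {w : Fin (m + 3) → ℂ} (hw : w ∈ V m) : F m w ∈ V m := by
  rcases hw with ⟨i, hi⟩ | h
  · by_cases h2 : i = 2
    · subst h2
      right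
      rw [F_apply_two, F_apply_of_ne zero_ne_two, F_apply_of_ne one_ne_two, hi]
      ring
    · left
      exact ⟨i, by rw [F_apply_of_ne h2, hi]; ring⟩
  · left
    refine ⟨2, ?_⟩
    rw [F_apply_two, h]
    ring

lemma iterate_mem_V {z : Fin (m + 3) → ℂ} (hz : z ∈ V m) (k : ℕ) : (F m)^[k] z ∈ V m := by
  induction k with
  | zero => exact hz
  | succ k ih => rw [Function.iterate_succ_apply']; exact F_mem_V ih

lemma pcrit_subset (U : Set (Fin (m + 3) → ℂ)) : PCritOn (F m) U ⊆ V m := by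
  rintro w ⟨k, z, hz, -, rfl⟩
  exact iterate_mem_V (Or.inl ((mem_crit_iff z).1 hz)) k

lemma exists_sq (w : ℂ) : ∃ s : ℂ, s ^ 2 = w ∧ ‖s‖ ^ 2 = ‖w‖ := by
  obtain ⟨s, hs⟩ := IsAlgClosed.exists_pow_nat_eq w (n := 2) (by norm_num)
  exact ⟨s, hs, by rw [← norm_pow, hs]⟩

lemma eventually_pcrit {U : Set (Fin (m + 3) → ℂ)} (hU : U ∈ 𝓝 (0 : Fin (m + 3) → ℂ)) :
    ∀ᶠ w in 𝓝 (0 : Fin (m + 3) → ℂ), w ∈ V m → w ∈ PCritOn (F m) U := by
  obtain ⟨r, hr, hrU⟩ := Metric.mem_nhds_iff.1 hU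
  have hball : Metric.ball (0 : Fin (m + 3) → ℂ) (min r (r ^ 2)) ∈ 𝓝 (0 : Fin (m + 3) → ℂ) :=
    Metric.ball_mem_nhds _ (by positivity)
  filter_upwards [hball] with w hw hV
  have hw' : ‖w‖ < min r (r ^ 2) := by simpa using hw
  have hwU : w ∈ U := hrU (by simpa using hw'.trans_le (min_le_left _ _))
  rcases hV with ⟨i, hi⟩ | h
  · refine ⟨0, w, (mem_crit_iff w).2 ⟨i, hi⟩, fun j hj => ?_, rfl⟩
    obtain rfl : j = 0 := by omega
    exact hwU
  · choose s hs hsn using exists_sq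
    let z : Fin (m + 3) → ℂ := fun i => if i = 2 then 0 else s (w i)
    have hz2 : z 2 = 0 := by simp [z]
    have hz : ∀ i, i ≠ 2 → z i = s (w i) := fun i hi => by simp [z, hi]
    have hzn : ‖z‖ < r := by
      refine (pi_norm_lt_iff hr).2 fun i => ?_
      by_cases hi : i = 2
      · rw [hi, hz2, norm_zero]; exact hr
      · rw [hz i hi]
        have h1 : ‖s (w i)‖ ^ 2 < r ^ 2 := by
          rw [hsn]
          exact (norm_le_pi_norm w i).trans_lt (hw'.trans_le (min_le_right _ _))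
        exact lt_of_pow_lt_pow_left₀ 2 hr.le h1
    have hzU : z ∈ U := hrU (by simpa using hzn)
    have hFz : F m z = w := by
      funext i
      by_cases hi : i = 2
      · subst hi
        rw [F_apply_two, hz2, hz 0 zero_ne_two, hz 1 one_ne_two, h]
        have e0 : s (w 0) ^ 4 = w 0 ^ 2 := by
          calc s (w 0) ^ 4 = (s (w 0) ^ 2) ^ 2 := by ring
            _ = w 0 ^ 2 := by rw [hs]
        rw [e0, hs]
        ring
      · rw [F_apply_of_ne hi, hz i hi, hs]
    refine ⟨1, z, (mem_crit_iff z).2 ⟨2, hz2⟩, fun j hj => ?_, by simpa using hFz⟩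
    rcases Nat.le_one_iff_eq_zero_or_eq_one.1 hj with rfl | rfl
    · exact hzU
    · simpa [hFz] using hwU

/-! #### The homeomorphism `ψ` -/

open scoped ComplexConjugate

variable (m) in
/-- The homeomorphism `ψ (x, y, z, w) = (x, conj y, ‖p‖² z, w)`. -/
noncomputable def psi (p : Fin (m + 3) → ℂ) : Fin (m + 3) → ℂ :=
  fun i => if i = 1 then conj (p 1) else if i = 2 then (‖p‖ : ℂ) ^ 2 * p 2 else p i

lemma psi_one (p : Fin (m + 3) → ℂ) : psi m p 1 = conj (p 1) := by simp [psi]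

lemma psi_two (p : Fin (m + 3) → ℂ) : psi m p 2 = (‖p‖ : ℂ) ^ 2 * p 2 := by
  simp [psi, one_ne_two.symm]

lemma psi_of_ne (p : Fin (m + 3) → ℂ) {i : Fin (m + 3)} (h1 : i ≠ 1) (h2 : i ≠ 2) :
    psi m p i = p i := by simp [psi, h1, h2]

lemma norm_psi_of_ne_two (p : Fin (m + 3) → ℂ) {i : Fin (m + 3)} (h2 : i ≠ 2) :
    ‖psi m p i‖ = ‖p i‖ := by
  by_cases h1 : i = 1
  · subst h1; rw [psi_one]; simp
  · rw [psi_of_ne p h1 h2]

lemma norm_psi_two (p : Fin (m + 3) → ℂ) : ‖psi m p 2‖ = ‖p‖ ^ 2 * ‖p 2‖ := by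
  rw [psi_two, norm_mul, norm_pow, Complex.norm_real, norm_norm]

lemma continuous_psi : Continuous (psi m) := by
  refine continuous_pi fun i => ?_
  by_cases h1 : i = 1
  · subst h1
    simp only [psi, if_true]
    exact Complex.continuous_conj.comp (continuous_apply 1)
  · by_cases h2 : i = 2
    · subst h2
      simp only [psi, one_ne_two.symm, if_false, if_true]
      exact ((Complex.continuous_ofReal.comp continuous_norm).pow 2).mul (continuous_apply 2)
    · simp only [psi, h1, h2, if_false]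
      exact continuous_apply i

lemma le_norm_psi {p : Fin (m + 3) → ℂ} (hp : 1 ≤ ‖p‖) : ‖p‖ ≤ ‖psi m p‖ := by
  refine (pi_norm_le_iff_of_nonneg (norm_nonneg _)).2 fun i => ?_
  refine le_trans ?_ (norm_le_pi_norm (psi m p) i)
  by_cases h2 : i = 2
  · subst h2
    rw [norm_psi_two]
    have h1 : (1 : ℝ) ≤ ‖p‖ ^ 2 := one_le_pow₀ hp
    nlinarith [norm_nonneg (p 2)]
  · rw [norm_psi_of_ne_two p h2]

lemma norm_le_of_le {p q : Fin (m + 3) → ℂ} (h : ∀ i, ‖p i‖ ≤ ‖q i‖) : ‖p‖ ≤ ‖q‖ :=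
  (pi_norm_le_iff_of_nonneg (norm_nonneg _)).2 fun i => (h i).trans (norm_le_pi_norm q i)

lemma psi_injective : Function.Injective (psi m) := by
  have key : ∀ p q : Fin (m + 3) → ℂ, psi m p = psi m q → ‖p 2‖ ≤ ‖q 2‖ := by
    intro p q h
    by_contra hlt
    push Not at hlt
    have hle : ‖q‖ ≤ ‖p‖ := by
      refine norm_le_of_le fun i => ?_
      by_cases h2 : i = 2
      · rw [h2]; exact hlt.le
      · rw [← norm_psi_of_ne_two p h2, ← norm_psi_of_ne_two q h2, h]
    have e : ‖p‖ ^ 2 * ‖p 2‖ = ‖q‖ ^ 2 * ‖q 2‖ := by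
      rw [← norm_psi_two, ← norm_psi_two, h]
    have hp : 0 < ‖p‖ := lt_of_lt_of_le ((norm_nonneg _).trans_lt hlt) (norm_le_pi_norm p 2)
    have h1 : ‖q‖ ^ 2 * ‖q 2‖ ≤ ‖p‖ ^ 2 * ‖q 2‖ := by gcongr
    have h2 : ‖p‖ ^ 2 * ‖q 2‖ < ‖p‖ ^ 2 * ‖p 2‖ := by gcongr
    linarith
  intro p q h
  have hn2 : ‖p 2‖ = ‖q 2‖ := le_antisymm (key p q h) (key q p h.symm)
  have hn : ‖p‖ = ‖q‖ := by
    have h' : ∀ i, ‖p i‖ = ‖q i‖ := fun i => by
      by_cases h2 : i = 2
      · rw [h2]; exact hn2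
      · rw [← norm_psi_of_ne_two p h2, ← norm_psi_of_ne_two q h2, h]
    exact le_antisymm (norm_le_of_le fun i => (h' i).le) (norm_le_of_le fun i => (h' i).ge)
  funext i
  by_cases h1 : i = 1
  · subst h1
    have := congrFun h 1
    rw [psi_one, psi_one] at this
    exact (starRingEnd ℂ).injective this
  · by_cases h2 : i = 2
    · subst h2
      by_cases hq : ‖q‖ = 0
      · have hp0 : p = 0 := norm_eq_zero.1 (hn.trans hq)
        have hq0 : q = 0 := norm_eq_zero.1 hq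
        rw [hp0, hq0]
      · have := congrFun h 2
        rw [psi_two, psi_two, hn] at this
        have hq' : (‖q‖ : ℂ) ^ 2 ≠ 0 := pow_ne_zero _ (by exact_mod_cast hq)
        exact mul_left_cancel₀ hq' this
    · have := congrFun h i
      rwa [psi_of_ne p h1 h2, psi_of_ne q h1 h2] at this

lemma exists_radius (a b : ℝ) (hb : 0 ≤ b) : ∃ r : ℝ, 0 ≤ r ∧ max a r ^ 2 * r = b := by
  let g : ℝ → ℝ := fun r => max a r ^ 2 * r
  have hg : Continuous g := ((continuous_const.max continuous_id).pow 2).mul continuous_id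
  have h0 : g 0 ≤ b := by simp [g, hb]
  have h1 : b ≤ g (b + 1) := by
    have : 1 ≤ max a (b + 1) := le_trans (by linarith) (le_max_right _ _)
    have h2 : (1 : ℝ) ≤ max a (b + 1) ^ 2 := one_le_pow₀ this
    simp only [g]
    nlinarith
  obtain ⟨r, hr, hr'⟩ := intermediate_value_Icc (by linarith : (0 : ℝ) ≤ b + 1)
    hg.continuousOn ⟨h0, h1⟩
  exact ⟨r, hr.1, hr'⟩

lemma psi_surjective : Function.Surjective (psi m) := by
  intro P
  -- the point with second coordinate removed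
  let P0 : Fin (m + 3) → ℂ := fun i => if i = 2 then 0 else if i = 1 then conj (P 1) else P i
  obtain ⟨r, hr0, hr⟩ := exists_radius ‖P0‖ ‖P 2‖ (norm_nonneg _)
  obtain ⟨u, hu, huP⟩ : ∃ u : ℂ, ‖u‖ = 1 ∧ P 2 = (‖P 2‖ : ℂ) * u := by
    by_cases h : P 2 = 0
    · exact ⟨1, by simp, by simp [h]⟩
    · refine ⟨P 2 / ‖P 2‖, ?_, ?_⟩
      · rw [norm_div, Complex.norm_real, norm_norm, div_self (norm_ne_zero_iff.2 h)]
      · rw [mul_div_cancel₀]
        exact_mod_cast norm_ne_zero_iff.2 h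
  let p : Fin (m + 3) → ℂ := fun i => if i = 2 then (r : ℂ) * u else P0 i
  have hp2 : p 2 = (r : ℂ) * u := by simp [p]
  have hpn2 : ‖p 2‖ = r := by
    rw [hp2, norm_mul, hu, mul_one, Complex.norm_real, Real.norm_of_nonneg hr0]
  have hp : ∀ i, i ≠ 2 → p i = P0 i := fun i hi => by simp [p, hi]
  have hnorm : ‖p‖ = max ‖P0‖ r := by
    apply le_antisymm
    · refine (pi_norm_le_iff_of_nonneg (le_max_of_le_right hr0)).2 fun i => ?_
      by_cases h2 : i = 2
      · rw [h2, hpn2]; exact le_max_right _ _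
      · rw [hp i h2]; exact (norm_le_pi_norm P0 i).trans (le_max_left _ _)
    · refine max_le ((pi_norm_le_iff_of_nonneg (norm_nonneg _)).2 fun i => ?_) ?_
      · by_cases h2 : i = 2
        · subst h2; simp [P0]
        · rw [← hp i h2]; exact norm_le_pi_norm p i
      · rw [← hpn2]; exact norm_le_pi_norm p 2
  refine ⟨p, ?_⟩
  funext i
  by_cases h1 : i = 1
  · subst h1
    rw [psi_one, hp 1 one_ne_two]
    simp [P0, one_ne_two]
  · by_cases h2 : i = 2
    · subst h2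
      rw [psi_two, hnorm, hp2]
      have e : ((max ‖P0‖ r : ℝ) : ℂ) ^ 2 * (r : ℂ) = (‖P 2‖ : ℂ) := by exact_mod_cast hr
      rw [← mul_assoc, e, ← huP]
    · rw [psi_of_ne p h1 h2, hp i h2]
      simp [P0, h1, h2]

lemma isClosedMap_psi : IsClosedMap (psi m) := by
  refine (isProperMap_iff_tendsto_cocompact.2 ⟨continuous_psi, ?_⟩).isClosedMap
  rw [← Metric.cobounded_eq_cocompact, ← tendsto_norm_atTop_iff_cobounded]
  refine tendsto_atTop_mono' _ ?_ (tendsto_norm_cobounded_atTop (E := Fin (m + 3) → ℂ))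
  filter_upwards [(tendsto_norm_cobounded_atTop (E := Fin (m + 3) → ℂ)).eventually_ge_atTop 1]
    with p hp using le_norm_psi hp

variable (m) in
/-- `ψ` as a homeomorphism of `ℂⁿ`. -/
noncomputable def Psi : (Fin (m + 3) → ℂ) ≃ₜ (Fin (m + 3) → ℂ) :=
  (Equiv.ofBijective (psi m) ⟨psi_injective, psi_surjective⟩).toHomeomorphOfContinuousClosed
    continuous_psi isClosedMap_psi

lemma Psi_apply (p : Fin (m + 3) → ℂ) : Psi m p = psi m p := rfl

variable (m) in
/-- The standard cone `K = ψ⁻¹(PCrit)`. -/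
def K : Set (Fin (m + 3) → ℂ) := psi m ⁻¹' V m

lemma mem_K_iff (p : Fin (m + 3) → ℂ) :
    p ∈ K m ↔ (∃ i, p i = 0) ∨ (‖p‖ : ℂ) ^ 2 * p 2 = - (p 0 ^ 2 * conj (p 1)) := by
  have h0 : (0 : Fin (m + 3)) ≠ 1 := by
    intro h; have := congrArg Fin.val h; simp at this
  have e : (∃ i, psi m p i = 0) ↔ ∃ i, p i = 0 := by
    constructor
    · rintro ⟨i, hi⟩
      by_cases h2 : i = 2
      · subst h2
        rw [psi_two, mul_eq_zero] at hi
        rcases hi with h | h
        · have hp : p = 0 := by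
            have : (‖p‖ : ℂ) = 0 := by simpa using h
            exact norm_eq_zero.1 (by exact_mod_cast this)
          exact ⟨0, by rw [hp]; rfl⟩
        · exact ⟨2, h⟩
      · refine ⟨i, ?_⟩
        rw [← norm_eq_zero, ← norm_psi_of_ne_two p h2, hi, norm_zero]
    · rintro ⟨i, hi⟩
      refine ⟨i, ?_⟩
      by_cases h2 : i = 2
      · subst h2; rw [psi_two, hi, mul_zero]
      · rw [← norm_eq_zero, norm_psi_of_ne_two p h2, hi, norm_zero]
  show (∃ i, psi m p i = 0) ∨ psi m p 2 = - (psi m p 0 ^ 2 * psi m p 1) ↔ _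
  rw [e, psi_two, psi_one, psi_of_ne p h0 zero_ne_two]

lemma isStandardCone_K : IsStandardCone (K m) := by
  intro a p hp
  rw [mem_K_iff] at hp ⊢
  rcases hp with ⟨i, hi⟩ | h
  · exact Or.inl ⟨i, by simp [hi]⟩
  · right
    rw [norm_smul]
    have ha : (‖a‖ : ℂ) ^ 2 = a * conj a := by
      rw [Complex.mul_conj, Complex.normSq_eq_norm_sq]
      push_cast
      ring
    simp only [Pi.smul_apply, smul_eq_mul, map_mul, Complex.ofReal_mul]
    calc ((‖a‖ : ℂ) * ‖p‖) ^ 2 * (a * p 2) = (‖a‖ : ℂ) ^ 2 * a * ((‖p‖ : ℂ) ^ 2 * p 2) := by ring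
      _ = a * conj a * a * (- (p 0 ^ 2 * conj (p 1))) := by rw [ha, h]
      _ = _ := by ring

lemma isClosed_V : IsClosed (V m) := by
  have : V m = (⋃ i, {w | w i = 0}) ∪ {w | w 2 = - (w 0 ^ 2 * w 1)} := by
    ext w; simp [V]
  rw [this]
  refine IsClosed.union (isClosed_iUnion_of_finite fun i => ?_) ?_
  · exact isClosed_eq (continuous_apply i) continuous_const
  · exact isClosed_eq (continuous_apply 2)
      (((continuous_apply 0).pow 2).mul (continuous_apply 1)).neg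

lemma psi_zero : psi m 0 = 0 := by
  funext i
  by_cases h1 : i = 1
  · subst h1; simp [psi_one]
  · by_cases h2 : i = 2
    · subst h2; simp [psi_two]
    · simp [psi_of_ne _ h1 h2]

lemma pcritIsTopologicalCone : PCritIsTopologicalCone (F m) := by
  refine ⟨K m, isClosed_V.preimage continuous_psi, isStandardCone_K,
    (Psi m).toOpenPartialHomeomorph, by simp, ?_, ?_⟩
  · show Psi m 0 = 0
    rw [Psi_apply, psi_zero]
  · intro U hU
    filter_upwards [eventually_pcrit hU] with w hw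
    have himg : (Psi m).toOpenPartialHomeomorph '' ((Psi m).toOpenPartialHomeomorph.source ∩ K m)
        = V m := by
      show psi m '' (Set.univ ∩ psi m ⁻¹' V m) = V m
      rw [Set.univ_inter]
      exact Set.image_preimage_eq _ psi_surjective
    rw [himg]
    exact ⟨fun h => pcrit_subset U h, hw⟩

/-! #### No topological conjugacy -/

/-- Local injectivity at a point. -/
def LocInj (G : (Fin (m + 3) → ℂ) → (Fin (m + 3) → ℂ)) (z : Fin (m + 3) → ℂ) : Prop :=
  ∃ U ∈ 𝓝 z, Set.InjOn G U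

lemma eq_of_sq_eq {a b q : ℂ} (h : a ^ 2 = b ^ 2) (ha : ‖a - q‖ < ‖q‖) (hb : ‖b - q‖ < ‖q‖) :
    a = b := by
  rcases sq_eq_sq_iff_eq_or_eq_neg.1 h with h | h
  · exact h
  · exfalso
    have e : (2 : ℂ) * q = -(a - q) - (b - q) := by rw [h]; ring
    have : ‖(2 : ℂ) * q‖ ≤ ‖a - q‖ + ‖b - q‖ := by
      rw [e]
      refine (norm_sub_le _ _).trans ?_
      rw [norm_neg]
    rw [norm_mul] at this
    norm_num at this
    linarith

/-- The neighbourhood of `q` (all coordinates nonzero) where squares determine the coordinates. -/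
lemma good_nhds {q : Fin (m + 3) → ℂ} (hq : ∀ i, q i ≠ 0) :
    {a : Fin (m + 3) → ℂ | ∀ i, ‖a i - q i‖ < ‖q i‖} ∈ 𝓝 q := by
  have : ∀ᶠ a in 𝓝 q, ∀ i, ‖a i - q i‖ < ‖q i‖ := by
    refine eventually_all.2 fun i => ?_
    have hc : ContinuousAt (fun a : Fin (m + 3) → ℂ => ‖a i - q i‖) q :=
      ((continuous_apply i).sub continuous_const).norm.continuousAt
    refine hc.eventually_lt continuousAt_const ?_
    simpa using hq i
  exact this

lemma locInj_H {q : Fin (m + 3) → ℂ} (hq : ∀ i, q i ≠ 0) : LocInj (H m) q := by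
  refine ⟨_, good_nhds hq, fun a ha b hb h => ?_⟩
  funext i
  exact eq_of_sq_eq (congrFun h i) (ha i) (hb i)

lemma locInj_F {q : Fin (m + 3) → ℂ} (hq : ∀ i, q i ≠ 0) : LocInj (F m) q := by
  refine ⟨_, good_nhds hq, fun a ha b hb h => ?_⟩
  have hne : ∀ i, i ≠ 2 → a i = b i := by
    intro i hi
    have := congrFun h i
    rw [F_apply_of_ne hi, F_apply_of_ne hi] at this
    exact eq_of_sq_eq this (ha i) (hb i)
  have h2 : a 2 = b 2 := by
    have := congrFun h 2
    rw [F_apply_two, F_apply_two, hne 0 zero_ne_two, hne 1 one_ne_two] at this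
    exact eq_of_sq_eq (sub_left_inj.1 this) (ha 2) (hb 2)
  funext i
  by_cases hi : i = 2
  · rw [hi]; exact h2
  · exact hne i hi

/-- If coordinate `i` of `q` vanishes and `G` does not change under flipping the sign of that
coordinate, then `G` is not locally injective at `q`. -/
lemma not_locInj {G : (Fin (m + 3) → ℂ) → (Fin (m + 3) → ℂ)} {q : Fin (m + 3) → ℂ}
    (i : Fin (m + 3)) (hi : q i = 0)
    (hG : ∀ s : ℂ, G (Function.update q i s) = G (Function.update q i (-s))) : ¬ LocInj G q := by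
  rintro ⟨U, hU, hinj⟩
  have hc : Continuous fun s : ℂ => Function.update q i s :=
    continuous_const.update i continuous_id
  have h0 : Function.update q i (0 : ℂ) = q := by
    rw [← hi]; exact Function.update_eq_self i q
  have h1 : ∀ᶠ s : ℂ in 𝓝 0, Function.update q i s ∈ U := by
    have := hc.tendsto 0
    rw [h0] at this
    exact this hU
  have h2 : ∀ᶠ s : ℂ in 𝓝 0, Function.update q i (-s) ∈ U := by
    have := (continuous_neg (G := ℂ)).tendsto 0
    rw [neg_zero] at this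
    exact this.eventually h1
  obtain ⟨s, ⟨hs1, hs2⟩, hs0⟩ :=
    ((h1.and h2).filter_mono nhdsWithin_le_nhds).and (self_mem_nhdsWithin (a := (0 : ℂ))
      (s := {0}ᶜ)) |>.exists
  have := congrFun (hinj hs1 hs2 (hG s)) i
  simp only [Function.update_self] at this
  have hs : s = 0 := by
    have h3 : s + s = 0 := by nth_rewrite 1 [this]; ring
    simpa using h3
  exact hs0 hs

lemma not_locInj_H {q : Fin (m + 3) → ℂ} (hq : ∃ i, q i = 0) : ¬ LocInj (H m) q := by
  obtain ⟨i, hi⟩ := hq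
  refine not_locInj i hi fun s => ?_
  funext j
  by_cases hj : j = i
  · subst hj; simp [H]
  · simp [H, hj]

lemma not_locInj_F {q : Fin (m + 3) → ℂ} (hq : q 2 = 0) : ¬ LocInj (F m) q := by
  refine not_locInj 2 hq fun s => ?_
  funext j
  by_cases hj : j = 2
  · subst hj
    rw [F_apply_two, F_apply_two]
    simp [zero_ne_two, one_ne_two]
  · rw [F_apply_of_ne hj, F_apply_of_ne hj]
    simp [hj]

lemma locInj_iff {φ : OpenPartialHomeomorph (Fin (m + 3) → ℂ) (Fin (m + 3) → ℂ)}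
    {z : Fin (m + 3) → ℂ} (hz : z ∈ φ.source) (hFz : F m z ∈ φ.source)
    (hconj : ∀ᶠ a in 𝓝 z, φ (F m a) = H m (φ a)) :
    LocInj (F m) z ↔ LocInj (H m) (φ z) := by
  have hs : ∀ᶠ a in 𝓝 z, a ∈ φ.source := φ.open_source.mem_nhds hz
  have hFs : ∀ᶠ a in 𝓝 z, F m a ∈ φ.source :=
    (continuous_F.tendsto z).eventually (φ.open_source.mem_nhds hFz)
  constructor
  · rintro ⟨U, hU, hinj⟩
    have hN : ∀ᶠ a in 𝓝 z, a ∈ U ∧ F m a ∈ φ.source ∧ φ (F m a) = H m (φ a) :=
      (show ∀ᶠ a in 𝓝 z, a ∈ U from hU).and (hFs.and hconj)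
    have hcont : Tendsto φ.symm (𝓝 (φ z)) (𝓝 z) := by
      have := φ.symm.continuousAt (x := φ z) (by simpa using φ.map_source hz)
      rwa [ContinuousAt, φ.left_inv hz] at this
    have hT : ∀ᶠ u in 𝓝 (φ z), u ∈ φ.target := φ.open_target.mem_nhds (φ.map_source hz)
    refine ⟨{u | u ∈ φ.target ∧ φ.symm u ∈ U ∧ F m (φ.symm u) ∈ φ.source ∧
      φ (F m (φ.symm u)) = H m (φ (φ.symm u))}, hT.and (hcont.eventually hN), ?_⟩
    rintro u ⟨hu, hu1, hu2, hu3⟩ v ⟨hv, hv1, hv2, hv3⟩ huv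
    rw [φ.right_inv hu] at hu3
    rw [φ.right_inv hv] at hv3
    have h1 : φ (F m (φ.symm u)) = φ (F m (φ.symm v)) := by rw [hu3, hv3, huv]
    have h2 := φ.injOn hu2 hv2 h1
    have h3 := hinj hu1 hv1 h2
    rw [← φ.right_inv hu, ← φ.right_inv hv, h3]
  · rintro ⟨U, hU, hinj⟩
    have hU' : ∀ᶠ a in 𝓝 z, φ a ∈ U := (φ.continuousAt hz).eventually hU
    refine ⟨{a | φ a ∈ U ∧ a ∈ φ.source ∧ φ (F m a) = H m (φ a)},
      hU'.and (hs.and hconj), ?_⟩
    rintro a ⟨ha1, ha2, ha3⟩ b ⟨hb1, hb2, hb3⟩ hab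
    have h1 : H m (φ a) = H m (φ b) := by rw [← ha3, ← hb3, hab]
    exact φ.injOn ha2 hb2 (hinj ha1 hb1 h1)

lemma not_conj : ¬ TopologicallyConjugated (F m) (H m) := by
  rintro ⟨φ, h0, -, hconj⟩
  have hF0 : Tendsto (F m) (𝓝 0) (𝓝 0) := by
    have := (continuous_F (m := m)).tendsto 0
    rwa [F_zero] at this
  have hs : ∀ᶠ z in 𝓝 (0 : Fin (m + 3) → ℂ), z ∈ φ.source := φ.open_source.mem_nhds h0
  have hA : ∀ᶠ z in 𝓝 (0 : Fin (m + 3) → ℂ),
      z ∈ φ.source ∧ F m z ∈ φ.source ∧ ∀ᶠ a in 𝓝 z, φ (F m a) = H m (φ a) :=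
    hs.and ((hF0.eventually hs).and hconj.eventually_nhds)
  have hB := hA.and (hF0.eventually hA)
  -- the test points
  let p : ℂ → (Fin (m + 3) → ℂ) := fun t i => if i = 2 then 0 else t
  have hp : Tendsto p (𝓝 0) (𝓝 0) := by
    have hc : Continuous p := by
      refine continuous_pi fun i => ?_
      by_cases hi : i = 2
      · simp only [p, hi, if_true]; exact continuous_const
      · simp only [p, hi, if_false]; exact continuous_id
    have e : p 0 = 0 := by funext i; simp [p]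
    have := hc.tendsto 0
    rwa [e] at this
  obtain ⟨t, ⟨⟨hz1, hz2, hz3⟩, hw1, hw2, hw3⟩, ht⟩ :=
    ((hp.eventually hB).filter_mono nhdsWithin_le_nhds).and (self_mem_nhdsWithin (a := (0 : ℂ))
      (s := {0}ᶜ)) |>.exists
  have ht0 : t ≠ 0 := ht
  have hp2 : p t 2 = 0 := by simp [p]
  have hpi : ∀ i, i ≠ 2 → p t i = t := fun i hi => by simp [p, hi]
  have h1 : ¬ LocInj (H m) (φ (p t)) := fun h => not_locInj_F hp2 ((locInj_iff hz1 hz2 hz3).2 h)
  have h2 : ∃ i, φ (p t) i = 0 := by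
    by_contra hne
    push Not at hne
    exact h1 (locInj_H hne)
  have h3 : ∃ i, φ (F m (p t)) i = 0 := by
    obtain ⟨i, hi⟩ := h2
    refine ⟨i, ?_⟩
    rw [hz3.self_of_nhds]
    simp [H, hi]
  have h4 : ¬ LocInj (F m) (F m (p t)) := fun h =>
    not_locInj_H h3 ((locInj_iff hw1 hw2 hw3).1 h)
  refine h4 (locInj_F fun i => ?_)
  by_cases hi : i = 2
  · subst hi
    rw [F_apply_two, hp2, hpi 0 zero_ne_two, hpi 1 one_ne_two]
    have : t ^ 4 * t ^ 2 ≠ 0 := mul_ne_zero (pow_ne_zero _ ht0) (pow_ne_zero _ ht0)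
    simpa using ht0
  · rw [F_apply_of_ne hi, hpi i hi]
    exact pow_ne_zero _ ht0

end Example

/-- **Main theorem.** For every `n ≥ 3` there are a superattracting germ `f` of `(ℂⁿ, O)` and a
non-degenerate homogeneous polynomial map `H` of degree `c ≥ 2` which is the leading term of `f`,
such that the postcritical set of `f` is a topological cone near `O` but `f` is not topologically
locally conjugated to `H`. -/
theorem result : ∀ n : ℕ, 3 ≤ n → ∃ (f H : (Fin n → ℂ) → (Fin n → ℂ)) (c : ℕ),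
    IsSuperattracting f ∧ 2 ≤ c ∧ IsLeadingTerm c f H ∧ (∀ z, H z = 0 → z = 0) ∧
      PCritIsTopologicalCone f ∧ ¬ TopologicallyConjugated f H := by
  intro n hn
  obtain ⟨m, rfl⟩ : ∃ m, n = m + 3 := ⟨n - 3, by omega⟩
  exact ⟨F m, H m, 2, ⟨analyticAt_F 0, F_zero, fderiv_F_zero⟩, le_rfl, isLeadingTerm,
    fun z hz => H_eq_zero hz, pcritIsTopologicalCone, not_conj⟩

end Pool.Agent.Results.MP_e6fcc0_an.TopCone
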